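import Pool.Agent.Lib.MP_6ec4b3_lc.Interfaces

/-!
# The gap
-/

namespace Pool.Agent.Polya.H37

open Pool.Agent.Polya Pool.Agent.Shoped30

theorem prob_mono {N : ℕ} {P Q : List Bool → Prop} (h : ∀ r, r.length = N → P r → Q r) :
    prob N P ≤ prob N Q := by
  unfold prob
  gcongr
  exact Nat.card_le_card_of_injective (fun r : {r : Fin N → Bool // P (List.ofFn r)} =>
    (⟨r.1, h _ (List.length_ofFn) r.2⟩ : {r : Fin N → Bool // Q (List.ofFn r)}))
    (fun a b hab => Subtype.ext (congrArg (fun z => z.1) hab))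

theorem F_zero_cast (k : ℕ) : F k 0 0 = k ^ 4 + k ^ 2 := by simp [F]

theorem F_le (k : ℕ) : (F k 0 0 : ℝ) ≤ 2 ^ (5 * k) := by
  have h1 : k ^ 4 + k ^ 2 ≤ 2 ^ (5 * k) := by
    rcases Nat.eq_zero_or_pos k with h | h
    · subst h; norm_num
    · have h2 : k < 2 ^ k := Nat.lt_two_pow_self
      have h3 : k ^ 4 ≤ (2 ^ k) ^ 4 := Nat.pow_le_pow_left h2.le 4
      have h4 : k ^ 2 ≤ k ^ 4 := Nat.pow_le_pow_right h (by norm_num)
      have h5 : 2 * (2 ^ k) ^ 4 ≤ 2 ^ k * (2 ^ k) ^ 4 := by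
        refine Nat.mul_le_mul_right _ ?_
        calc 2 = 2 ^ 1 := by norm_num
          _ ≤ 2 ^ k := Nat.pow_le_pow_right (by norm_num) h
      have h6 : 2 ^ (5 * k) = 2 ^ k * (2 ^ k) ^ 4 := by
        rw [← pow_mul, ← pow_add]; ring_nf
      omega
  rw [F_zero_cast]
  exact_mod_cast h1

theorem one_le_F {k : ℕ} (hk : 1 ≤ k) : (1 : ℝ) ≤ F k 0 0 := by
  rw [F_zero_cast]
  have : 1 ≤ k ^ 4 + k ^ 2 := le_add_right (Nat.one_le_pow _ _ hk)
  exact_mod_cast this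

theorem nblocks_mono {n l l' t : ℕ} (h : l ≤ l') : nblocks n l t ≤ nblocks n l' t := by
  unfold nblocks
  gcongr

theorem cnfZ_eq (hR : ROWS) (k h : ℕ) (ψ : List Cl4) (l : ℕ) (r : List Bool) :
    cnfZ k h ψ l r = ZZ k (4 * ψ.length) l (tc k ψ.length h)
      (fun u v => conf ψ u.val v.val) (omOf (4 * ψ.length) l (tc k ψ.length h) r) :=
  (hR k (4 * ψ.length) l (tc k ψ.length h) (conf ψ) r).2

theorem gap_thm (hR : ROWS) (hL : LOW) (hU : UP) (hP : PAR) (hS : SAT) (hM : MARKOV) : GAP := by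
  intro k c h hk hc
  have hk1 : 1 ≤ k := by omega
  obtain ⟨l, hl, h1, h2, h3⟩ := hP k (4 * c) (wf c h) hk (by unfold wf; omega)
  change 2 ^ wf c h ≤ lam k (4 * c) l (tc k c h) at h1
  change lam k (4 * c) l (tc k c h) ≤ 2 ^ (wf c h + 1) at h2
  change lam k (4 * c) l (tc k c h) * nu k ^ tc k c h ≤ mu k ^ tc k c h at h3
  have hA1 : (1 : ℝ) ≤ (F k 0 0 : ℝ) ^ nblocks (4 * c) l (tc k c h) := one_le_pow₀ (one_le_F hk1)
  have hA2 : (F k 0 0 : ℝ) ^ nblocks (4 * c) l (tc k c h) ≤ 2 ^ (5 * k * mmx k c h) := by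
    calc (F k 0 0 : ℝ) ^ nblocks (4 * c) l (tc k c h)
        ≤ (F k 0 0 : ℝ) ^ mmx k c h := pow_le_pow_right₀ (one_le_F hk1) (nblocks_mono hl)
      _ ≤ ((2 : ℝ) ^ (5 * k)) ^ mmx k c h := pow_le_pow_left₀ (by positivity) (F_le k) _
      _ = 2 ^ (5 * k * mmx k c h) := (pow_mul _ _ _).symm
  have hlam1 : (1 : ℝ) ≤ lam k (4 * c) l (tc k c h) := le_trans (one_le_pow₀ (by norm_num)) h1
  have hlc : lam k (4 * c) l (tc k c h) ≤ lam k (4 * c) l (tc k c h) ^ c := by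
    calc lam k (4 * c) l (tc k c h) = lam k (4 * c) l (tc k c h) ^ 1 := (pow_one _).symm
      _ ≤ _ := pow_le_pow_right₀ hlam1 hc
  have hlc2 : lam k (4 * c) l (tc k c h) ^ c ≤ 2 ^ ((wf c h + 1) * c) := by
    rw [pow_mul]
    exact pow_le_pow_left₀ (by linarith) h2 _
  set A : ℝ := (F k 0 0 : ℝ) ^ nblocks (4 * c) l (tc k c h) with hA
  set lm : ℝ := lam k (4 * c) l (tc k c h) with hlm
  have h2h : (2 : ℝ) ^ h ≤ 2 ^ wf c h := pow_le_pow_right₀ (by norm_num) (by unfold wf; omega)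
  have hX1 : 1 ≤ A * lm ^ c / 2 ^ h := by
    rw [le_div_iff₀ (by positivity), one_mul]
    calc (2 : ℝ) ^ h ≤ lm := h2h.trans h1
      _ ≤ lm ^ c := hlc
      _ ≤ A * lm ^ c := le_mul_of_one_le_left (by positivity) hA1
  obtain ⟨τ, hτ1, hτ2⟩ := exists_nat_pow_near hX1 (by norm_num : (1 : ℝ) < 2)
  refine ⟨l, hl, τ, ?_, ?_⟩
  · have h4 : (2 : ℝ) ^ τ ≤ 2 ^ tmx k c h := by
      calc (2 : ℝ) ^ τ ≤ A * lm ^ c / 2 ^ h := hτ1
        _ ≤ A * lm ^ c := div_le_self (by positivity) (one_le_pow₀ (by norm_num))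
        _ ≤ 2 ^ (5 * k * mmx k c h) * 2 ^ ((wf c h + 1) * c) := by gcongr
        _ = 2 ^ tmx k c h := by rw [← pow_add]; rfl
    exact (pow_le_pow_iff_right₀ (by norm_num)).1 h4
  · intro ψ hψ
    subst hψ
    refine ⟨fun hsat r => ?_, fun hsat => ?_⟩
    · obtain ⟨I, hI, hIc⟩ := (hS ψ).1 hsat
      rw [cnfZ_eq hR]
      have h5 := hL k (4 * ψ.length) l (tc k ψ.length h) hk1
        (fun u v => conf ψ u.val v.val) (omOf (4 * ψ.length) l (tc k ψ.length h) r) I hI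
      rw [hIc] at h5
      refine le_trans ?_ h5
      rw [pow_add]
      calc (2 : ℝ) ^ τ * 2 ^ h ≤ A * lm ^ ψ.length / 2 ^ h * 2 ^ h := by gcongr
        _ = A * lm ^ ψ.length := by field_simp
    · have h5 := hU k (4 * ψ.length) l (tc k ψ.length h) (ψ.length - 1) hk1
        (fun u v => conf ψ u.val v.val) (fun I hI => by
          have := (hS ψ).2 hsat I hI
          omega) hlam1 h3
      have h6 := hM (4 * ψ.length) l (tc k ψ.length h)
        (fun ω => (ZZ k (4 * ψ.length) l (tc k ψ.length h)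
          (fun u v => conf ψ u.val v.val) ω : ℝ))
        (A * 2 ^ (4 * ψ.length) * lm ^ (ψ.length - 1)) (fun ω => Nat.cast_nonneg _) h5
      refine h6.trans (prob_mono fun r _ hr => ?_)
      rw [cnfZ_eq hR]
      have h7 : lm ^ ψ.length = lm ^ (ψ.length - 1) * lm := by
        rw [← pow_succ]
        congr 1
        omega
      have h8 : (2 : ℝ) ^ wf ψ.length h =
          2 ^ (4 * ψ.length) * 2 ^ (h + 1) * 8 * 2 * 2 ^ h := by
        have : wf ψ.length h = 4 * ψ.length + (h + 1) + 3 + 1 + h := by unfold wf; ring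
        rw [this, pow_add, pow_add, pow_add, pow_add]
        norm_num
      have h9 : 2 ^ (h + 1) * (8 * (A * 2 ^ (4 * ψ.length) * lm ^ (ψ.length - 1))) * 2 * 2 ^ h ≤
          A * lm ^ ψ.length := by
        calc 2 ^ (h + 1) * (8 * (A * 2 ^ (4 * ψ.length) * lm ^ (ψ.length - 1))) * 2 * 2 ^ h
            = A * lm ^ (ψ.length - 1) * 2 ^ wf ψ.length h := by rw [h8]; ring
          _ ≤ A * lm ^ (ψ.length - 1) * lm := by gcongr
          _ = A * lm ^ ψ.length := by rw [h7]; ring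
      have h10 : 2 ^ (h + 1) * (8 * (A * 2 ^ (4 * ψ.length) * lm ^ (ψ.length - 1))) * 2 ≤
          A * lm ^ ψ.length / 2 ^ h := by
        rw [le_div_iff₀ (by positivity)]
        exact h9
      have h11 : (2 : ℝ) ^ (τ + 1) = 2 ^ τ * 2 := pow_succ _ _
      have h12 : (2 : ℝ) ^ (h + 1) * (ZZ k (4 * ψ.length) l (tc k ψ.length h)
          (fun u v => conf ψ u.val v.val) (omOf (4 * ψ.length) l (tc k ψ.length h) r) : ℝ) ≤
          2 ^ (h + 1) * (8 * (A * 2 ^ (4 * ψ.length) * lm ^ (ψ.length - 1))) := by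
        gcongr
      linarith

end Pool.Agent.Polya.H37
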