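import Pool.Agent.Lib.MP_6ec4b3_lc.Interfaces

/-!
# The group generated by a list of rows
-/

namespace Pool.Agent.Polya.H37

open Pool.Agent.Polya

theorem blockPerm_mul {M : ℕ} (f g : Fin M → Equiv.Perm (Fin 4)) :
    blockPerm f * blockPerm g = blockPerm (fun j => f j * g j) := by
  ext a
  simp [blockPerm, Equiv.permCongr_apply, Equiv.prodCongrRight]

theorem blockPerm_one {M : ℕ} : blockPerm (fun _ : Fin M => (1 : Equiv.Perm (Fin 4))) = 1 := by
  ext a
  simp only [blockPerm, Equiv.permCongr_apply, Equiv.prodCongrRight, Equiv.coe_fn_mk,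
    Equiv.Perm.coe_one, id_eq, Prod.mk.eta, Equiv.apply_symm_apply]

theorem blockPerm_inj {M : ℕ} {f g : Fin M → Equiv.Perm (Fin 4)}
    (h : blockPerm f = blockPerm g) : f = g := by
  funext j
  ext a
  have h1 := congrArg (fun e : Equiv.Perm (Fin (M * 4)) => finProdFinEquiv.symm
    (e (finProdFinEquiv (j, a)))) h
  simp only [blockPerm, Equiv.permCongr_apply, Equiv.symm_apply_apply,
    Equiv.prodCongrRight, Equiv.coe_fn_mk, Prod.mk.injEq, true_and] at h1
  rw [h1]

/-- The representative with arguments in the field with two elements. -/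
def repZ (p q : ZMod 2) : Equiv.Perm (Fin 4) := rep (decide (p = 1)) (decide (q = 1))

/-- The powers of the central element. -/
def cenZ (c : ZMod 2) : Equiv.Perm (Fin 4) := if c = 1 then cen else 1

theorem rep_mul : ∀ p q c p' q' c' : ZMod 2, repZ p q * cenZ c * (repZ p' q' * cenZ c') =
    repZ (p + p') (q + q') * cenZ (c + c' + q * p') := by
  decide +kernel

theorem rep_inj : ∀ p q c p' q' c' : ZMod 2, repZ p q * cenZ c = repZ p' q' * cenZ c' →
    p = p' ∧ q = q' ∧ c = c' := by
  decide +kernel

theorem rep_inv : ∀ p q c : ZMod 2, (repZ p q * cenZ c)⁻¹ = repZ p q * cenZ (c + p * q) := by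
  decide +kernel

theorem repZ_zero : repZ 0 0 = 1 := by decide +kernel
theorem cenZ_zero : cenZ 0 = 1 := by decide +kernel

variable {L : ℕ} {rows : List Row}

theorem lin_add (p : List Bool) (x y : Fin L → ZMod 2) :
    lin L p (x + y) = lin L p x + lin L p y := by
  unfold lin
  rw [← Finset.sum_add_distrib]
  refine Finset.sum_congr rfl fun i _ => ?_
  split_ifs <;> simp

theorem lin_zero (p : List Bool) : lin L p 0 = 0 := by
  unfold lin
  simp

theorem lin_single (p : List Bool) (i : Fin L) :
    lin L p (Pi.single i 1) = if p.getD i.val false = true then 1 else 0 := by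
  unfold lin
  rw [Finset.sum_eq_single i]
  · simp
  · intro j _ hj
    simp [Pi.single_eq_of_ne hj]
  · simp

/-- The elements of the group. -/
def el (L : ℕ) (rows : List Row) (x : Fin L → ZMod 2) (c : Fin rows.length → ZMod 2) :
    Equiv.Perm (Fin (rows.length * 4)) :=
  blockPerm fun j => repZ (lin L (rows.get j).1 x) (lin L (rows.get j).2 x) * cenZ (c j)

theorem el_mul (x y : Fin L → ZMod 2) (c d : Fin rows.length → ZMod 2) :
    el L rows x c * el L rows y d = el L rows (x + y)
      (fun j => c j + d j + lin L (rows.get j).2 x * lin L (rows.get j).1 y) := by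
  unfold el
  rw [blockPerm_mul]
  congr 1
  funext j
  rw [rep_mul, lin_add, lin_add]

theorem el_zero : el L rows 0 0 = 1 := by
  unfold el
  rw [← blockPerm_one]
  congr 1
  funext j
  rw [lin_zero, lin_zero, repZ_zero, Pi.zero_apply, cenZ_zero, one_mul]

theorem el_inv (x : Fin L → ZMod 2) (c : Fin rows.length → ZMod 2) :
    (el L rows x c)⁻¹ = el L rows x
      (fun j => c j + lin L (rows.get j).1 x * lin L (rows.get j).2 x) := by
  rw [inv_eq_iff_mul_eq_one, el_mul, ← el_zero (L := L) (rows := rows)]
  have h2 : ∀ a : ZMod 2, a + a = 0 := by decide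
  have h3 : ∀ a b c : ZMod 2, a + (a + b * c) + c * b = 0 := by decide
  congr 1
  · funext i
    exact h2 _
  · funext j
    exact h3 _ _ _

/-- The group. -/
def grp (L : ℕ) (rows : List Row) : Subgroup (Equiv.Perm (Fin (rows.length * 4))) where
  carrier := {g | ∃ x c, g = el L rows x c}
  mul_mem' := by
    rintro _ _ ⟨x, c, rfl⟩ ⟨y, d, rfl⟩
    exact ⟨_, _, el_mul _ _ _ _⟩
  one_mem' := ⟨0, 0, el_zero.symm⟩
  inv_mem' := by
    rintro _ ⟨x, c, rfl⟩
    exact ⟨_, _, el_inv _ _⟩

theorem gen1 (i : Fin L) : (blockPerm fun j =>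
    rep ((rows.get j).1.getD i.val false) ((rows.get j).2.getD i.val false)) =
      el L rows (Pi.single i 1) 0 := by
  unfold el
  congr 1
  funext j
  rw [lin_single, lin_single, Pi.zero_apply, cenZ_zero, mul_one, repZ]
  congr 1
  · cases (rows.get j).1.getD i.val false <;> decide
  · cases (rows.get j).2.getD i.val false <;> decide

theorem gen2 (j : Fin rows.length) : (blockPerm fun j' : Fin rows.length =>
    if j' = j then cen else 1) = el L rows 0 (Pi.single j 1) := by
  unfold el
  congr 1
  funext j'
  rw [lin_zero, lin_zero, repZ_zero, one_mul, cenZ]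
  by_cases h : j' = j
  · subst h
    simp
  · simp [h]

theorem closure_gens : Subgroup.closure {h | h ∈ gens L rows} = grp L rows := by
  apply le_antisymm
  · rw [Subgroup.closure_le]
    intro g hg
    change g ∈ gens L rows at hg
    unfold gens at hg
    rw [List.mem_append, List.mem_map, List.mem_map] at hg
    rcases hg with ⟨i, _, rfl⟩ | ⟨j, _, rfl⟩
    · exact ⟨_, _, gen1 i⟩
    · exact ⟨_, _, gen2 j⟩
  · have hg1 : ∀ i, el L rows (Pi.single i 1) 0 ∈ Subgroup.closure {h | h ∈ gens L rows} := by
      intro i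
      refine Subgroup.subset_closure ?_
      rw [← gen1]
      exact List.mem_append_left _ (List.mem_map_of_mem (List.mem_finRange i))
    have hg2 : ∀ j, el L rows 0 (Pi.single j 1) ∈ Subgroup.closure {h | h ∈ gens L rows} := by
      intro j
      refine Subgroup.subset_closure ?_
      rw [← gen2]
      exact List.mem_append_right _ (List.mem_map_of_mem (List.mem_finRange j))
    have h01 : ∀ a : ZMod 2, a = 0 ∨ a = 1 := by decide
    have hc : ∀ c : Fin rows.length → ZMod 2,
        el L rows 0 c ∈ Subgroup.closure {h | h ∈ gens L rows} := by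
      intro c
      have hsum : c = ∑ j, Pi.single j (c j) := (Finset.univ_sum_single c).symm
      rw [hsum]
      refine Finset.sum_induction (fun j => Pi.single j (c j))
        (fun c => el L rows 0 c ∈ Subgroup.closure {h | h ∈ gens L rows}) ?_ ?_ ?_
      · intro a b ha hb
        have := mul_mem ha hb
        rw [el_mul] at this
        simpa [lin_zero, Pi.add_def] using this
      · rw [el_zero]; exact one_mem _
      · intro j _
        rcases h01 (c j) with h | h
        · rw [h, Pi.single_zero, el_zero]; exact one_mem _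
        · rw [h]; exact hg2 j
    have hx : ∀ x : Fin L → ZMod 2, ∀ c,
        el L rows x c ∈ Subgroup.closure {h | h ∈ gens L rows} := by
      intro x
      have hsum : x = ∑ j, Pi.single j (x j) := (Finset.univ_sum_single x).symm
      rw [hsum]
      refine Finset.sum_induction (fun j => Pi.single j (x j))
        (fun x => ∀ c, el L rows x c ∈ Subgroup.closure {h | h ∈ gens L rows}) ?_ ?_ ?_
      · intro a b ha hb c
        have := mul_mem (ha (fun j => c j + lin L (rows.get j).2 a * lin L (rows.get j).1 b))
          (hb 0)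
        rw [el_mul] at this
        have h3 : ∀ a b : ZMod 2, a + b + 0 + b = a := by decide
        convert this using 2
        funext j
        exact (h3 _ _).symm
      · exact hc
      · intro i _ c
        rcases h01 (x i) with h | h
        · rw [h, Pi.single_zero]; exact hc c
        · rw [h]
          have := mul_mem (hg1 i) (hc c)
          rw [el_mul] at this
          simpa [lin_zero] using this
    rintro _ ⟨x, c, rfl⟩
    exact hx x c

theorem el_injective
    (h : ∀ x : Fin L → ZMod 2, (∀ r ∈ rows, lin L r.1 x = 0 ∧ lin L r.2 x = 0) → x = 0) :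
    Function.Injective fun y : (Fin L → ZMod 2) × (Fin rows.length → ZMod 2) =>
      el L rows y.1 y.2 := by
  rintro ⟨x, c⟩ ⟨y, d⟩ he
  have h1 := blockPerm_inj he
  have h2 : ∀ j, lin L (rows.get j).1 x = lin L (rows.get j).1 y ∧
      lin L (rows.get j).2 x = lin L (rows.get j).2 y ∧ c j = d j := fun j =>
    rep_inj _ _ _ _ _ _ (congrFun h1 j)
  have h3 : ∀ a b : ZMod 2, a = b → a + b = 0 := by decide
  have h4 : x + y = 0 := by
    refine h _ fun r hr => ?_
    obtain ⟨j, rfl⟩ := List.mem_iff_get.1 hr
    rw [lin_add, lin_add]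
    exact ⟨h3 _ _ (h2 j).1, h3 _ _ (h2 j).2.1⟩
  have h5 : ∀ a b : ZMod 2, a + b = 0 → a = b := by decide
  refine Prod.ext ?_ ?_
  · funext i
    exact h5 _ _ (congrFun h4 i)
  · funext j
    exact (h2 j).2.2

theorem grp_thm (hC : CYC) : GRP := by
  classical
  intro k L rows h
  obtain ⟨hC1, hC2⟩ := hC
  have hF : ∀ p q : ZMod 2, ∑ c : ZMod 2, k ^ cyc (repZ p q * cenZ c) = F k p q := by
    intro p q
    have e1 : ∑ c : ZMod 2, k ^ cyc (repZ p q * cenZ c) =
        k ^ cyc (repZ p q * cenZ 0) + k ^ cyc (repZ p q * cenZ 1) := Fin.sum_univ_two _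
    rw [e1, cenZ_zero, mul_one]
    have e2 : cenZ 1 = cen := by decide +kernel
    rw [e2]
    have e3 := hC2 k (decide (p = 1)) (decide (q = 1))
    unfold repZ
    rw [e3]
    have h01 : ∀ a : ZMod 2, (if decide (a = 1) = true then (1 : ZMod 2) else 0) = a := by
      decide
    rw [h01, h01]
  unfold Z
  rw [closure_gens, ← Finset.sum_filter]
  have himg : (Finset.univ.filter fun g => g ∈ grp L rows) =
      Finset.univ.image fun y : (Fin L → ZMod 2) × (Fin rows.length → ZMod 2) =>
        el L rows y.1 y.2 := by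
    ext g
    simp only [Finset.mem_filter, Finset.mem_univ, true_and, Finset.mem_image, Prod.exists]
    constructor
    · rintro ⟨x, c, rfl⟩
      exact ⟨x, c, rfl⟩
    · rintro ⟨x, c, rfl⟩
      exact ⟨x, c, rfl⟩
  rw [himg, Finset.sum_image (fun a _ b _ hab => el_injective h hab), Fintype.sum_prod_type]
  refine Finset.sum_congr rfl fun x _ => ?_
  have e1 : ∀ c : Fin rows.length → ZMod 2, k ^ cyc (el L rows x c) =
      ∏ j, k ^ cyc (repZ (lin L (rows.get j).1 x) (lin L (rows.get j).2 x) * cenZ (c j)) := by
    intro c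
    rw [el, hC1, Finset.prod_pow_eq_pow_sum]
  simp only [e1]
  have e2 := Finset.prod_univ_sum (fun _ : Fin rows.length => (Finset.univ : Finset (ZMod 2)))
    (fun j c => k ^ cyc (repZ (lin L (rows.get j).1 x) (lin L (rows.get j).2 x) * cenZ c))
  rw [Fintype.piFinset_univ] at e2
  rw [← e2]
  simp only [hF]
  exact Fin.prod_univ_fun_getElem rows fun r => F k (lin L r.1 x) (lin L r.2 x)

end Pool.Agent.Polya.H37
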