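import Pool.Agent.Lib.MP_6ec4b3_lc.H37.Final
import Pool.Agent.Lib.MP_6ec4b3_lc.H37.Gap
import Pool.Agent.Lib.MP_6ec4b3_lc.H37.Grp
import Pool.Agent.Lib.MP_6ec4b3_lc.H78.Up
import Pool.Agent.Lib.MP_6ec4b3_lc.H58.DC
import Pool.Agent.Lib.MP_6ec4b3_lc.H58.RPM
import Pool.Agent.Lib.MP_6ec4b3_lc.H58.FPA
import Pool.Agent.Lib.MP_6ec4b3_lc.H70.Amp
import Pool.Agent.Lib.MP_6ec4b3_lc.H70.Prob
import Pool.Agent.Lib.MP_6ec4b3_lc.H4.SR
import Pool.Agent.Lib.MP_6ec4b3_lc.H4.Rows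
import Pool.Agent.Lib.MP_6ec4b3_lc.H76.Bridge
import Pool.Agent.Lib.MP_6ec4b3_lc.H76.Unpair
import Pool.Agent.Lib.MP_6ec4b3_lc.H15.Low
import Pool.Agent.Lib.MP_6ec4b3_lc.H27.SAT
import Pool.Agent.Lib.MP_6ec4b3_lc.H53.Word
import Pool.Agent.Lib.MP_6ec4b3_lc.H75.Rate
import Pool.Agent.Lib.MP_6ec4b3_lc.H93.Markov
import Pool.Agent.Lib.MP_6ec4b3_lc.H43.Cyc
import Pool.Agent.Lib.MP_6ec4b3_lc.H58.PTR
import Pool.Agent.Lib.MP_6ec4b3_lc.H64.PTD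
import Pool.Agent.Lib.MP_6ec4b3_lc.H42.PTW

/-!
# Assembly of the modules
-/

namespace Pool.Agent.Polya.H37

open Pool.Agent.Polya Pool.Agent.Shoped30

theorem assemble : MAIN := by
  have hR : ROWS := H4.rows (grp_thm H43.cyc_thm)
  have hG : GAP := gap_thm hR H15.low H78.up H78.par H27.sat H93.markov
  exact main_thm (H58.fpa H76.ptu H76.bridge) H76.bridge
    (H58.dc hG H70.probFacts H53.word_main hR H76.ptu) H75.rate
    (H64.ptd H42.ptw H76.ptu) (H58.rpm (H4.sr H70.probFacts H70.amp) H58.ptr H76.ptu H76.bridge)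
    (H76.rpnp H76.bridge H76.ptu)

end Pool.Agent.Polya.H37
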