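import Pool.Agent.Lib.MP_6ec4b3_lc.Interfaces

/-!
# The main theorem from the modules
-/

namespace Pool.Agent.Polya.H37

open Pool.Agent.Polya Pool.Agent.Shoped30 Pool.Agent.TMLib

theorem core (hDC : DC) (hPTD : PTD) (hRPM : RPM) {k : ℕ} (hk : 2 ≤ k) {ρ : ℕ → ℝ}
    {A : List Bool → List Bool} {p : Polynomial ℕ} (hA : PTime A) (hρ : ∀ m, 0 < ρ m)
    (hap : IsApx k ρ A p) {hf : ℕ → ℕ} (hhf : PTime hf)
    (hr : ∀ c, 1 ≤ c → ∀ m, m ≤ 4 * mmx k c (hf c) → ρ m ≤ 2 ^ hf c) :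
    ∀ L : Set (List Bool), InNP L → InRP L := by
  obtain ⟨h1, h2, h3, h4⟩ := hPTD k A p hf hA hhf
  refine hRPM (fun φ l τ r => dec A p k (hf φ.length) φ l τ r) (fun c => lmx k c (hf c))
    (fun c => tmx k c (hf c)) (fun c => bmx k p c (hf c)) h1 h2 h3 h4 (fun c hc => ?_)
  obtain ⟨l, hl, τ, hτ, h5⟩ := hDC k ρ A p hk hρ hap c (hf c) hc (hr c hc)
  refine ⟨l, hl, τ, hτ, fun ψ hψ => ?_⟩
  subst hψ
  exact h5 ψ rfl

theorem main_thm (hFPA : FPA) (hB : BRIDGE) (hDC : DC) (hRate : RATE) (hPTD : PTD)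
    (hRPM : RPM) (hRN : RPNP) : MAIN := by
  intro k hk
  refine ⟨fun h L => ⟨fun hL => ?_, hRN L⟩, fun δ h0 h1 h L => ⟨fun hL => ?_, hRN L⟩⟩
  · obtain ⟨A, p, hA, hap⟩ := hFPA k h
    exact core hDC hPTD hRPM hk hA (fun _ => by norm_num) hap (hf := fun _ => 1)
      (PTime.const 1) (fun c _ m _ => by norm_num) L hL
  · obtain ⟨A, p, hA, hap⟩ := h
    obtain ⟨c0, K, hcK⟩ := hRate k δ h0 h1
    refine core hDC hPTD hRPM hk (hB.1 A hA) (fun m => by positivity) hap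
      (hf := fun c => (4 * c + c0) ^ K) ?_ (fun c hc m hm => ?_) L hL
    · exact pt_pow (by fun_prop) K
    · rw [← Real.rpow_natCast]
      exact Real.rpow_le_rpow_of_exponent_le (by norm_num) (hcK c hc m hm)

end Pool.Agent.Polya.H37
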